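import Mathlib

set_option autoImplicit false

namespace Pool.Agent.H548R3.MM

open Finset

/-- A system of `D ≥ 8` complex numbers, all of modulus `< D`, none equal to `1`, whose sum is
`D(D-1)+T` with `Re T ≥ 0` cannot satisfy `∑ 1/(1-l) = 0`. -/
theorem core {ι : Type*} [DecidableEq ι] (S : Finset ι) (l : ι → ℂ) (D : ℝ) (T : ℂ)
    (hD : 8 ≤ D) (hT : 0 ≤ T.re) (hcard : (S.card : ℝ) = D)
    (hlt : ∀ i ∈ S, ‖l i‖ < D) (hne : ∀ i ∈ S, l i ≠ 1)
    (hsum : ∑ i ∈ S, l i = (D : ℂ) * ((D : ℂ) - 1) + T)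
    (hinv : ∑ i ∈ S, (1 - l i)⁻¹ = 0) : False := by
  have hre : ∀ i ∈ S, (l i).re < D := fun i hi =>
    lt_of_le_of_lt (Complex.re_le_norm _) (hlt i hi)
  have hsr : ∑ i ∈ S, (l i).re = D * (D - 1) + T.re := by
    have := congrArg Complex.re hsum
    simpa using this
  have h1 : ∃ i0 ∈ S, (l i0).re < 1 := by
    by_contra hcon
    push Not at hcon
    have hle : ∀ i ∈ S, ((1 - l i)⁻¹).re ≤ 0 := by
      intro i hi
      rw [Complex.inv_re]
      apply div_nonpos_of_nonpos_of_nonneg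
      · have := hcon i hi
        simp only [Complex.sub_re, Complex.one_re]
        linarith
      · exact Complex.normSq_nonneg _
    have hs0 : ∑ i ∈ S, ((1 - l i)⁻¹).re = 0 := by
      have := congrArg Complex.re hinv
      simpa only [Complex.re_sum, Complex.zero_re] using this
    have hz := (Finset.sum_eq_zero_iff_of_nonpos hle).1 hs0
    have hz' : ∀ i ∈ S, (l i).re = 1 := by
      intro i hi
      have h := hz i hi
      rw [Complex.inv_re, div_eq_zero_iff] at h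
      rcases h with h | h
      · simp only [Complex.sub_re, Complex.one_re] at h
        linarith
      · exfalso
        rw [Complex.normSq_eq_zero, sub_eq_zero] at h
        exact hne i hi h.symm
    rw [Finset.sum_congr rfl hz'] at hsr
    simp only [Finset.sum_const, nsmul_eq_mul, mul_one] at hsr
    rw [hcard] at hsr
    nlinarith
  obtain ⟨i0, hi0, hi01⟩ := h1
  set S' := S.erase i0 with hS'
  have hcard' : (S'.card : ℝ) = D - 1 := by
    have h := Finset.card_erase_add_one hi0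
    have h2 : ((S.erase i0).card : ℝ) + 1 = (S.card : ℝ) := by exact_mod_cast h
    rw [hS']
    linarith
  have hmem : ∀ i ∈ S', i ∈ S := fun i hi => Finset.mem_of_mem_erase hi
  have hcard'C : (S'.card : ℂ) = (D : ℂ) - 1 := by
    have := congrArg (fun x : ℝ => (x : ℂ)) hcard'
    simpa using this
  -- s
  have hs : ∑ i ∈ S', ((D : ℂ) - l i) = l i0 - T := by
    have h := Finset.sum_erase_add S l hi0
    rw [Finset.sum_sub_distrib, Finset.sum_const, nsmul_eq_mul, hcard'C]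
    have h2 : ∑ i ∈ S', l i = (D : ℂ) * ((D : ℂ) - 1) + T - l i0 := by
      rw [← hsum, ← h]; ring
    rw [h2]; ring
  set r : ℝ := (l i0).re - T.re with hr
  have hrsum : ∑ i ∈ S', (D - (l i).re) = r := by
    have := congrArg Complex.re hs
    simpa using this
  have hpos : ∀ i ∈ S', 0 < D - (l i).re := fun i hi => by
    have := hre i (hmem i hi); linarith
  have hne' : S'.Nonempty := by
    rw [← Finset.card_pos]
    have : (0 : ℝ) < (S'.card : ℝ) := by rw [hcard']; linarith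
    exact_mod_cast this
  have hr0 : 0 < r := by
    rw [← hrsum]
    exact Finset.sum_pos hpos hne'
  have hr1 : r < 1 := by rw [hr]; linarith
  have hle1 : ∀ i ∈ S', D - (l i).re ≤ r := by
    intro i hi
    rw [← hrsum]
    exact Finset.single_le_sum (f := fun i => D - (l i).re) (fun j hj => (hpos j hj).le) hi
  have hsq : ∀ i ∈ S', ‖(D : ℂ) - l i‖ ^ 2 ≤ 2 * D * (D - (l i).re) := by
    intro i hi
    have h1 := hlt i (hmem i hi)
    have h2 : ‖l i‖ ^ 2 < D ^ 2 := by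
      have := norm_nonneg (l i)
      nlinarith
    rw [Complex.sq_norm, Complex.normSq_apply] at h2
    rw [Complex.sq_norm, Complex.normSq_apply]
    simp only [Complex.sub_re, Complex.sub_im, Complex.ofReal_re, Complex.ofReal_im]
    nlinarith
  have hden : ∀ i ∈ S', D - 2 ≤ ‖l i - 1‖ := by
    intro i hi
    have h1 := hle1 i hi
    have h2 := Complex.re_le_norm (l i - 1)
    simp only [Complex.sub_re, Complex.one_re] at h2
    linarith
  set E : ℂ := ∑ i ∈ S', ((D : ℂ) - l i) ^ 2 / (l i - 1) with hE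
  set s : ℂ := l i0 - T with hsdef
  have hN0 : ((D : ℂ) - 1) ≠ 0 := by
    have : (D - 1 : ℝ) ≠ 0 := by linarith
    exact_mod_cast this
  have hl1 : ∀ i ∈ S, l i - 1 ≠ 0 := fun i hi => sub_ne_zero.2 (hne i hi)
  have hterm : ∀ i ∈ S', (l i - 1)⁻¹ = ((D : ℂ) - 1)⁻¹ +
      (((D : ℂ) - 1) ^ 2)⁻¹ * ((D : ℂ) - l i) +
      (((D : ℂ) - 1) ^ 2)⁻¹ * (((D : ℂ) - l i) ^ 2 / (l i - 1)) := by
    intro i hi
    have h := hl1 i (hmem i hi)
    field_simp
    ring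
  have hsumS' : ∑ i ∈ S', (l i - 1)⁻¹ = 1 + (((D : ℂ) - 1) ^ 2)⁻¹ * (s + E) := by
    rw [Finset.sum_congr rfl hterm, Finset.sum_add_distrib, Finset.sum_add_distrib,
      Finset.sum_const, nsmul_eq_mul, hcard'C, ← Finset.mul_sum, ← Finset.mul_sum, hs,
      mul_inv_cancel₀ hN0]
    ring
  have hkey0 : (1 - l i0)⁻¹ = 1 + (((D : ℂ) - 1) ^ 2)⁻¹ * (s + E) := by
    rw [← hsumS']
    have h := Finset.sum_erase_add S (fun i => (1 - l i)⁻¹) hi0
    rw [hinv] at h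
    have h2 : ∑ i ∈ S', (l i - 1)⁻¹ = - ∑ i ∈ S', (1 - l i)⁻¹ := by
      rw [← Finset.sum_neg_distrib]
      refine Finset.sum_congr rfl fun i hi => ?_
      rw [← inv_neg, neg_sub]
    rw [h2]
    exact eq_neg_of_add_eq_zero_right h
  have h1l : (1 - l i0) ≠ 0 := sub_ne_zero.2 (hne i0 hi0).symm
  have hkey : ((D : ℂ) - 1) ^ 2 * l i0 = (1 - l i0) * (s + E) := by
    have h3 : (1 - l i0) * (1 - l i0)⁻¹ = 1 := mul_inv_cancel₀ h1l
    rw [hkey0] at h3
    have h4 : ((D : ℂ) - 1) ^ 2 * ((1 - l i0) * (1 + (((D : ℂ) - 1) ^ 2)⁻¹ * (s + E)))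
        = ((D : ℂ) - 1) ^ 2 := by rw [h3, mul_one]
    have h5 : ((D : ℂ) - 1) ^ 2 * (((D : ℂ) - 1) ^ 2)⁻¹ = 1 :=
      mul_inv_cancel₀ (pow_ne_zero 2 hN0)
    linear_combination -h4 + (1 - l i0) * (s + E) * h5
  -- estimates
  have hEle : ‖E‖ ≤ 8 / 3 * r := by
    have h1 : ‖E‖ ≤ ∑ i ∈ S', (8 / 3 : ℝ) * (D - (l i).re) := by
      refine (norm_sum_le _ _).trans (Finset.sum_le_sum fun i hi => ?_)
      rw [norm_div, norm_pow]
      have h2 := hsq i hi
      have h3 := hden i hi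
      have h4 : 0 < ‖l i - 1‖ := by linarith
      rw [div_le_iff₀ h4]
      have h5 := hpos i hi
      have h6 : 2 * D ≤ 8 / 3 * ‖l i - 1‖ := by linarith
      calc ‖(D : ℂ) - l i‖ ^ 2 ≤ 2 * D * (D - (l i).re) := h2
        _ ≤ (8 / 3 * ‖l i - 1‖) * (D - (l i).re) := mul_le_mul_of_nonneg_right h6 h5.le
        _ = _ := by ring
    rw [← Finset.mul_sum, hrsum] at h1
    exact h1
  have hsle : ‖s‖ ^ 2 ≤ (D - 1) * (2 * D * r) := by
    have h1 : ‖s‖ ≤ ∑ i ∈ S', ‖(D : ℂ) - l i‖ := by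
      rw [← hs]; exact norm_sum_le _ _
    have h2 : (∑ i ∈ S', ‖(D : ℂ) - l i‖) ^ 2 ≤ (S'.card : ℝ) * ∑ i ∈ S', ‖(D : ℂ) - l i‖ ^ 2 :=
      sq_sum_le_card_mul_sum_sq
    have h3 : ∑ i ∈ S', ‖(D : ℂ) - l i‖ ^ 2 ≤ 2 * D * r := by
      rw [← hrsum, Finset.mul_sum]
      exact Finset.sum_le_sum hsq
    calc ‖s‖ ^ 2 ≤ (∑ i ∈ S', ‖(D : ℂ) - l i‖) ^ 2 := by
          apply pow_le_pow_left₀ (norm_nonneg _) h1
      _ ≤ (S'.card : ℝ) * ∑ i ∈ S', ‖(D : ℂ) - l i‖ ^ 2 := h2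
      _ = (D - 1) * ∑ i ∈ S', ‖(D : ℂ) - l i‖ ^ 2 := by rw [hcard']
      _ ≤ (D - 1) * (2 * D * r) := mul_le_mul_of_nonneg_left h3 (by linarith)
  set W : ℂ := s + E with hW
  have hWle : ‖W‖ ^ 2 ≤ r * (4 * D * (D - 1) + 128 / 9) := by
    have h1 : ‖W‖ ≤ ‖s‖ + ‖E‖ := norm_add_le _ _
    have h2 : ‖W‖ ^ 2 ≤ 2 * ‖s‖ ^ 2 + 2 * ‖E‖ ^ 2 := by
      have h0 := norm_nonneg W
      have : ‖W‖ ^ 2 ≤ (‖s‖ + ‖E‖) ^ 2 := pow_le_pow_left₀ h0 h1 2
      nlinarith [sq_nonneg (‖s‖ - ‖E‖)]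
    have h3 : ‖E‖ ^ 2 ≤ (8 / 3 * r) ^ 2 := pow_le_pow_left₀ (norm_nonneg _) hEle 2
    nlinarith
  have hreal : (D - 1) ^ 2 * (l i0).re = (s + E).re - (l i0 * W).re := by
    have := congrArg Complex.re hkey
    have h2 : ((D : ℂ) - 1) ^ 2 * l i0 = (((D - 1) ^ 2 : ℝ) : ℂ) * l i0 := by push_cast; ring
    rw [h2, Complex.re_ofReal_mul] at this
    rw [this, ← Complex.sub_re]
    congr 1
    rw [hW]; ring
  have hnorm : (D - 1) ^ 2 * ‖l i0‖ = ‖1 - l i0‖ * ‖W‖ := by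
    have := congrArg norm hkey
    have h2 : ((D : ℂ) - 1) ^ 2 * l i0 = (((D - 1) ^ 2 : ℝ) : ℂ) * l i0 := by push_cast; ring
    rw [h2, norm_mul, norm_mul, Complex.norm_real, Real.norm_of_nonneg (sq_nonneg _)] at this
    exact this
  have h1D : ‖1 - l i0‖ ≤ 1 + D := by
    have h := norm_sub_le (1 : ℂ) (l i0)
    have h2 := hlt i0 hi0
    rw [norm_one] at h
    linarith
  have hsre : s.re = r := by rw [hsdef, Complex.sub_re]
  have hmain : (D - 1) ^ 2 * r ≤ 11 / 3 * r + ‖l i0‖ * ‖W‖ := by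
    have h1 : (D - 1) ^ 2 * r ≤ (D - 1) ^ 2 * (l i0).re :=
      mul_le_mul_of_nonneg_left (by rw [hr]; linarith) (sq_nonneg _)
    have h2 : (s + E).re ≤ r + 8 / 3 * r := by
      rw [Complex.add_re, hsre]
      have := Complex.re_le_norm E
      linarith
    have h3 : -(l i0 * W).re ≤ ‖l i0‖ * ‖W‖ := by
      rw [← norm_mul]
      have := Complex.abs_re_le_norm (l i0 * W)
      exact (neg_le_abs _).trans this
    rw [hreal] at h1
    linarith
  have hfin : (D - 1) ^ 4 * r ≤ (D - 1) ^ 2 * (11 / 3 * r) +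
      (1 + D) * (r * (4 * D * (D - 1) + 128 / 9)) := by
    have h1 : (D - 1) ^ 2 * ((D - 1) ^ 2 * r) ≤ (D - 1) ^ 2 * (11 / 3 * r + ‖l i0‖ * ‖W‖) :=
      mul_le_mul_of_nonneg_left hmain (sq_nonneg _)
    have h2 : (D - 1) ^ 2 * (‖l i0‖ * ‖W‖) = ‖1 - l i0‖ * ‖W‖ ^ 2 := by
      rw [← mul_assoc, hnorm]; ring
    have h3 : ‖1 - l i0‖ * ‖W‖ ^ 2 ≤ (1 + D) * (r * (4 * D * (D - 1) + 128 / 9)) := by
      apply mul_le_mul h1D hWle (by positivity) (by linarith)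
    have h4 : (D - 1) ^ 4 * r = (D - 1) ^ 2 * ((D - 1) ^ 2 * r) := by ring
    rw [h4]
    refine h1.trans ?_
    rw [mul_add, h2]
    linarith
  have hpoly : (D - 1) ^ 2 * (11 / 3) + (1 + D) * (4 * D * (D - 1) + 128 / 9) < (D - 1) ^ 4 := by
    obtain ⟨x, hx0, hx⟩ : ∃ x : ℝ, 0 ≤ x ∧ D = 8 + x := ⟨D - 8, by linarith, by ring⟩
    rw [hx]
    have h2 : 0 ≤ x ^ 2 := by positivity
    have h3 : 0 ≤ x ^ 3 := by positivity
    have h4 : 0 ≤ x ^ 4 := by positivity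
    nlinarith
  nlinarith

end Pool.Agent.H548R3.MM
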