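import Pool.Agent.H548R3.MM.Main

set_option autoImplicit false

namespace Pool.Agent.H548R3.MM

open Polynomial

theorem natDegree_pos_pow (d n : ℕ) (hd : 2 ≤ d) (hn : 1 ≤ n) : 2 ≤ d ^ n :=
  calc 2 ≤ d := hd
    _ = d ^ 1 := (pow_one _).symm
    _ ≤ d ^ n := Nat.pow_le_pow_right (by omega) hn

/-- The mean-value lower bound. -/
theorem mean_bound (p : ℂ[X]) (hd : 2 ≤ p.natDegree) (n : ℕ) (hn : 1 ≤ n) :
    ∃ z : ℂ, (iter p n).eval z = z ∧
      ‖(p.natDegree : ℂ) ^ n - 1 + tr p ^ n / (p.natDegree : ℂ) ^ n‖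
        ≤ ‖(derivative (iter p n)).eval z‖ := by
  classical
  by_contra hcon
  push Not at hcon
  set f := iter p n with hf
  set D : ℕ := p.natDegree ^ n with hD
  have hfD : f.natDegree = D := iter_natDegree p n
  have hD2 : 2 ≤ D := natDegree_pos_pow _ _ hd hn
  have hsum := sum_multipliers f (by rw [hfD]; exact hD2)
  have htr : tr f = tr p ^ n := by
    have hn1 : n = (n - 1) + 1 := by omega
    rw [hf, hn1, tr_iter p hd]
  have hnd := natDegree_sub_X f (by rw [hfD]; exact hD2)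
  have hg0 : f - X ≠ 0 := by
    intro h; rw [h] at hnd; simp at hnd; omega
  have hcard : (f - X).roots.card = D := by
    rw [← hfD, ← hnd]; exact (IsAlgClosed.splits (f - X)).natDegree_eq_card_roots.symm
  rw [hfD, htr] at hsum
  set m : ℂ := (p.natDegree : ℂ) ^ n - 1 + tr p ^ n / (p.natDegree : ℂ) ^ n with hm
  have hDC : (D : ℂ) = (p.natDegree : ℂ) ^ n := by rw [hD]; push_cast; rfl
  have hDne : (D : ℂ) ≠ 0 := by exact_mod_cast (by omega : D ≠ 0)
  have hmD : (D : ℂ) * ((D : ℂ) - 1) + tr p ^ n = (D : ℂ) * m := by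
    rw [hm, ← hDC]; field_simp
  rw [hmD] at hsum
  have hn2 : ‖((f - X).roots.map (fun ζ => (derivative f).eval ζ)).sum‖
      ≤ ((f - X).roots.map (fun ζ => ‖(derivative f).eval ζ‖)).sum := by
    have := Multiset.le_sum_of_subadditive (fun z : ℂ => ‖z‖) norm_zero.le norm_add_le
      ((f - X).roots.map (fun ζ => (derivative f).eval ζ))
    rwa [Multiset.map_map] at this
  have hn3 : ((f - X).roots.map (fun ζ => ‖(derivative f).eval ζ‖)).sum
      < ((f - X).roots.map (fun _ => ‖m‖)).sum := by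
    apply Multiset.sum_lt_sum_of_nonempty
    · intro h0; rw [h0] at hcard; simp at hcard; omega
    · intro ζ hζ
      refine hcon ζ ?_
      have := (mem_roots hg0).1 hζ
      rwa [IsRoot.def, eval_sub, eval_X, sub_eq_zero] at this
  rw [Multiset.map_const', Multiset.sum_replicate, hcard, nsmul_eq_mul] at hn3
  rw [hsum, norm_mul, Complex.norm_natCast] at hn2
  exact absurd (hn2.trans_lt hn3) (lt_irrefl _)

/-- `tr` of a quadratic polynomial vanishes. -/
theorem tr_quadratic (p : ℂ[X]) (hd : p.natDegree = 2) : tr p = 0 := by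
  have hcard : p.roots.card = 2 := by
    rw [← hd]; exact (IsAlgClosed.splits p).natDegree_eq_card_roots.symm
  obtain ⟨u, v, huv⟩ := Multiset.card_eq_two.1 hcard
  have hp : p = C p.leadingCoeff * (p.roots.map (fun w => X - C w)).prod :=
    (IsAlgClosed.splits p).eq_prod_roots
  rw [huv] at hp
  set a := p.leadingCoeff with ha
  have hp2 : p = C a * ((X - C u) * (X - C v)) := by
    rw [hp]; simp
  rw [tr, huv]
  have hder : derivative p = C a * ((X - C v) + (X - C u)) := by
    conv_lhs => rw [hp2]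
    simp [derivative_mul]
  rw [hder]
  simp only [Multiset.insert_eq_cons, Multiset.map_cons, Multiset.map_singleton,
    Multiset.sum_cons, Multiset.sum_singleton, eval_mul, eval_C, eval_add, eval_sub, eval_X]
  ring

/-- `tr (q₁(q₂^m)) = 0` for `m ≥ 2`. -/
theorem tr_comp_pow (q₁ q₂ : ℂ[X]) (h₁ : 1 ≤ q₁.natDegree) (h₂ : 1 ≤ q₂.natDegree)
    (m : ℕ) (hm : 2 ≤ m) : tr (q₁.comp (q₂ ^ m)) = 0 := by
  have hnd : 2 ≤ (q₂ ^ m).natDegree := by
    rw [natDegree_pow]; nlinarith
  rw [tr_comp q₁ (q₂ ^ m) h₁ hnd]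
  have h : tr (q₂ ^ m) = 0 := by
    rw [tr]
    have hq0 : q₂ ^ m ≠ 0 := by
      intro h0; rw [h0] at hnd; simp at hnd
    have h1 : ∀ ζ ∈ (q₂ ^ m).roots, (derivative (q₂ ^ m)).eval ζ = 0 := by
      intro ζ hζ
      have h2 := (mem_roots hq0).1 hζ
      rw [IsRoot.def, eval_pow] at h2
      have h3 : q₂.eval ζ = 0 := pow_eq_zero_iff (by omega) |>.1 h2
      rw [derivative_pow, eval_mul, eval_mul, eval_pow, h3, zero_pow (by omega), mul_zero,
        zero_mul]
    rw [Multiset.map_congr rfl h1]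
    simp
  rw [h, mul_zero]

/-- `tr` of a real polynomial is real. -/
theorem tr_real (q : ℝ[X]) : (tr (q.map (algebraMap ℝ ℂ))).im = 0 := by
  set p := q.map (algebraMap ℝ ℂ) with hp
  have hpc : p.map (starRingEnd ℂ) = p := by
    rw [hp, Polynomial.map_map]
    congr 1
    ext x
    simp
  have hroots : p.roots.map (starRingEnd ℂ) = p.roots := by
    have h := (IsAlgClosed.splits p).roots_map (starRingEnd ℂ)
    rw [hpc] at h
    exact h.symm
  have hder : (derivative p).map (starRingEnd ℂ) = derivative p := by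
    rw [← derivative_map, hpc]
  rw [← Complex.conj_eq_iff_im]
  rw [tr, map_multiset_sum, Multiset.map_map]
  conv_rhs => rw [← hroots, Multiset.map_map]
  congr 1
  apply Multiset.map_congr rfl
  intro ζ _
  simp only [Function.comp]
  conv_rhs => rw [← hder, eval_map, eval₂_hom]

/-- One of `w, w², w³` has nonnegative real part. -/
theorem one_of_three (w : ℂ) : 0 ≤ w.re ∨ 0 ≤ (w ^ 2).re ∨ 0 ≤ (w ^ 3).re := by
  by_contra hcon
  push Not at hcon
  obtain ⟨h1, h2, h3⟩ := hcon
  have e2 : (w ^ 2).re = w.re ^ 2 - w.im ^ 2 := by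
    rw [pow_two, Complex.mul_re]; ring
  have e3 : (w ^ 3).re = w.re * (w.re ^ 2 - 3 * w.im ^ 2) := by
    rw [pow_succ, pow_two, Complex.mul_re, Complex.mul_re, Complex.mul_im]; ring
  rw [e2] at h2
  rw [e3] at h3
  have h4 : 0 < w.re ^ 2 - 3 * w.im ^ 2 := by
    by_contra h5
    push Not at h5
    nlinarith
  nlinarith [sq_nonneg w.im]

end Pool.Agent.H548R3.MM
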