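import Mathlib

set_option autoImplicit false

namespace Pool.Agent.H548R3.MM

open Polynomial

theorem quad_numbers (s : ℂ) (h1 : ‖(1 + s) * (1 + s)‖ < 4) (h2 : ‖(1 - s) * (1 - s)‖ < 4)
    (h3 : ‖5 - s * s‖ < 4) : False := by
  have k1 : ‖1 + s‖ ^ 2 < 4 := by rw [norm_mul] at h1; nlinarith
  have k2 : ‖1 - s‖ ^ 2 < 4 := by rw [norm_mul] at h2; nlinarith
  rw [Complex.sq_norm, Complex.normSq_apply] at k1 k2
  have k3 := (Complex.re_le_norm (5 - s * s)).trans_lt h3
  simp only [Complex.add_re, Complex.add_im, Complex.sub_re, Complex.sub_im, Complex.one_re,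
    Complex.one_im, Complex.mul_re] at k1 k2 k3
  have h5 : (5 : ℂ).re = 5 := by simp
  rw [h5] at k3
  -- x² - y² > 1, (1±x)²+y² < 4
  set x := s.re
  set y := s.im
  have hx1 : 1 < x * x := by nlinarith [mul_self_nonneg y]
  rcases lt_or_ge 0 x with hx | hx
  · have : 1 < x := by nlinarith
    nlinarith [mul_self_nonneg y]
  · have : x < -1 := by nlinarith
    nlinarith [mul_self_nonneg y]

/-- The case `d = 2`, `n = 2`. -/
theorem quad_two (p : ℂ[X]) (hd : p.natDegree = 2) :
    ∃ z : ℂ, (p.comp p).eval z = z ∧ (4 : ℝ) ≤ ‖(derivative (p.comp p)).eval z‖ := by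
  set a := p.coeff 2 with ha
  set b := p.coeff 1 with hb
  set c := p.coeff 0 with hc
  have ha0 : a ≠ 0 := by
    have hp0 : p ≠ 0 := by rintro rfl; simp at hd
    have := leadingCoeff_ne_zero.2 hp0
    rwa [leadingCoeff, hd] at this
  have hev : ∀ z, p.eval z = a * z ^ 2 + b * z + c := by
    intro z
    rw [eval_eq_sum_range, hd]
    simp only [Finset.sum_range_succ, Finset.range_zero, Finset.sum_empty]
    ring
  have hdev : ∀ z, (derivative p).eval z = 2 * a * z + b := by
    intro z
    have hdn : (derivative p).natDegree < 2 := by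
      have := natDegree_derivative_le p
      omega
    rw [eval_eq_sum_range' hdn]
    simp only [Finset.sum_range_succ, Finset.range_zero, Finset.sum_empty, coeff_derivative]
    push_cast
    simp only [zero_add]
    norm_num
    ring
  have hcc : ∀ z, (p.comp p).eval z = p.eval (p.eval z) := fun z => eval_comp
  have hdc : ∀ z, (derivative (p.comp p)).eval z
      = (derivative p).eval (p.eval z) * (derivative p).eval z := by
    intro z
    rw [derivative_comp, eval_mul, eval_comp]; ring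
  by_contra hcon
  push Not at hcon
  obtain ⟨s, hs⟩ := IsAlgClosed.exists_pow_nat_eq ((b - 1) ^ 2 - 4 * a * c) (n := 2) (by norm_num)
  obtain ⟨r, hr⟩ := IsAlgClosed.exists_pow_nat_eq (s ^ 2 - 4) (n := 2) (by norm_num)
  have h2a : 2 * a ≠ 0 := mul_ne_zero two_ne_zero ha0
  -- fixed points
  have hfix : ∀ σ : ℂ, σ ^ 2 = (b - 1) ^ 2 - 4 * a * c →
      p.eval ((1 - b + σ) / (2 * a)) = (1 - b + σ) / (2 * a) := by
    intro σ hσ
    rw [hev]
    field_simp
    linear_combination hσ
  have hfixd : ∀ σ : ℂ, (derivative p).eval ((1 - b + σ) / (2 * a)) = 1 + σ := by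
    intro σ
    rw [hdev]
    field_simp
    ring
  have hA : ∀ σ : ℂ, σ ^ 2 = (b - 1) ^ 2 - 4 * a * c → ‖(1 + σ) * (1 + σ)‖ < 4 := by
    intro σ hσ
    have h1 := hfix σ hσ
    have h2 := hcon ((1 - b + σ) / (2 * a)) (by rw [hcc, h1, h1])
    rw [hdc, h1, hfixd] at h2
    exact h2
  have h1 := hA s hs
  have h2 := hA (-s) (by rw [neg_pow_two]; exact hs)
  rw [← sub_eq_add_neg] at h2
  -- the 2-cycle
  have hz1 : p.eval ((-(b + 1) + r) / (2 * a)) = (-(b + 1) - r) / (2 * a) := by
    rw [hev]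
    field_simp
    linear_combination hr + hs
  have hz2 : p.eval ((-(b + 1) - r) / (2 * a)) = (-(b + 1) + r) / (2 * a) := by
    rw [hev]
    field_simp
    linear_combination hr + hs
  have h3 := hcon ((-(b + 1) + r) / (2 * a)) (by rw [hcc, hz1, hz2])
  rw [hdc, hz1, hdev, hdev] at h3
  have h4 : (2 * a * ((-(b + 1) - r) / (2 * a)) + b) * (2 * a * ((-(b + 1) + r) / (2 * a)) + b)
      = 5 - s * s := by
    field_simp
    linear_combination -hr
  rw [h4] at h3
  exact quad_numbers s h1 h2 h3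

end Pool.Agent.H548R3.MM
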