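import Mathlib

set_option autoImplicit false

namespace Pool.Agent.H548R3.MM

open Polynomial

/-- Sum of the values of `h` over the roots of `g` as a coefficient of the remainder of `h g'`. -/
theorem trace_lemma (g h Q R : ℂ[X]) (hg : g ≠ 0) (hdeg : R.degree < g.degree)
    (hQ : h * derivative g = Q * g + R) :
    g.leadingCoeff * (g.roots.map (fun ζ => h.eval ζ)).sum = R.coeff (g.natDegree - 1) := by
  classical
  set a := g.leadingCoeff with ha
  set M := g.roots with hM
  have hsplit : g.Splits := IsAlgClosed.splits g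
  have hgP : g = C a * (M.map (fun ζ => X - C ζ)).prod := hsplit.eq_prod_roots
  have hcardM : M.card = g.natDegree := hsplit.natDegree_eq_card_roots.symm
  set e : ℂ → ℂ[X] := fun ζ => ((M.erase ζ).map (fun η => X - C η)).prod with he
  have hder : derivative g = C a * (M.map (fun ζ => e ζ)).sum := by
    conv_lhs => rw [hgP]
    rw [derivative_C_mul, derivative_prod]
    congr 2
    apply Multiset.map_congr rfl
    intro ζ hζ
    simp [he]
  set R' : ℂ[X] := C a * (M.map (fun ζ => C (h.eval ζ) * e ζ)).sum with hR'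
  set Q' : ℂ[X] := (M.map (fun ζ => h /ₘ (X - C ζ))).sum with hQ'
  have hmain : h * derivative g = Q' * g + R' := by
    rw [hder, hR', hQ']
    conv_rhs => rw [hgP]
    have h1 : h * (C a * (M.map (fun ζ => e ζ)).sum)
        = C a * (M.map (fun ζ => h * e ζ)).sum := by
      rw [Multiset.sum_map_mul_left]; ring
    have h2 : (M.map (fun ζ => h * e ζ)) = M.map (fun ζ => (h /ₘ (X - C ζ)) *
        (M.map (fun ζ => X - C ζ)).prod + C (h.eval ζ) * e ζ) := by
      apply Multiset.map_congr rfl
      intro ζ hζ
      have h3 : (X - C ζ) * e ζ = (M.map (fun ζ => X - C ζ)).prod :=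
        Multiset.prod_map_erase hζ
      have h4 : h %ₘ (X - C ζ) + (X - C ζ) * (h /ₘ (X - C ζ)) = h :=
        modByMonic_add_div h (X - C ζ)
      rw [modByMonic_X_sub_C_eq_C_eval] at h4
      rw [← h3]
      conv_lhs => rw [← h4]
      ring
    rw [h1, h2, Multiset.sum_map_add, Multiset.sum_map_mul_right]
    ring
  have hmonic : ∀ ζ, (e ζ).Monic := fun ζ =>
    monic_multiset_prod_of_monic _ _ (fun η _ => monic_X_sub_C η)
  have hnd : ∀ ζ ∈ M, (e ζ).natDegree = g.natDegree - 1 := by
    intro ζ hζ
    rw [he]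
    simp only
    rw [natDegree_multiset_prod_X_sub_C_eq_card, Multiset.card_erase_of_mem hζ, hcardM]
    rfl
  have hgdeg : g.degree = (g.natDegree : WithBot ℕ) := degree_eq_natDegree hg
  have hcoe : ∀ m, R'.coeff m = a * (M.map (fun ζ => h.eval ζ * (e ζ).coeff m)).sum := by
    intro m
    rw [hR', coeff_C_mul]
    congr 1
    have h5 := map_multiset_sum (lcoeff ℂ m) (M.map (fun ζ => C (h.eval ζ) * e ζ))
    rw [lcoeff_apply] at h5
    rw [h5, Multiset.map_map]
    congr 1
    apply Multiset.map_congr rfl
    intro ζ hζ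
    simp [lcoeff_apply]
  have hR'deg : R'.degree < g.degree := by
    rw [hgdeg, degree_lt_iff_coeff_zero]
    intro m hm
    rw [hcoe]
    have h6 : (M.map (fun ζ => h.eval ζ * (e ζ).coeff m)) = M.map (fun ζ => (0 : ℂ)) := by
      apply Multiset.map_congr rfl
      intro ζ hζ
      have hpos : 0 < g.natDegree := by
        rw [← hcardM]; exact Multiset.card_pos_iff_exists_mem.2 ⟨ζ, hζ⟩
      rw [coeff_eq_zero_of_natDegree_lt (by rw [hnd ζ hζ]; omega), mul_zero]
    rw [h6]
    simp
  have heq : R = R' := by
    have h7 : g ∣ R - R' := ⟨Q' - Q, by linear_combination hmain - hQ⟩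
    have h8 := eq_zero_of_dvd_of_degree_lt h7
      ((degree_sub_le _ _).trans_lt (max_lt hdeg hR'deg))
    exact sub_eq_zero.1 h8
  rw [heq, hcoe]
  congr 2
  apply Multiset.map_congr rfl
  intro ζ hζ
  have h9 : (e ζ).coeff (g.natDegree - 1) = 1 := by
    rw [← hnd ζ hζ]; exact (hmonic ζ).coeff_natDegree
  rw [h9, mul_one]

/-- `tr f = ∑_{f(ζ)=0} f'(ζ)`, roots counted with multiplicity. -/
noncomputable def tr (f : ℂ[X]) : ℂ := (f.roots.map (fun ζ => (derivative f).eval ζ)).sum

section
variable (f : ℂ[X])

theorem natDegree_der (_hf : 2 ≤ f.natDegree) : (derivative f).natDegree = f.natDegree - 1 :=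
  natDegree_derivative f

theorem quot_facts (hf : 2 ≤ f.natDegree) :
    ∃ Q R : ℂ[X], derivative f * derivative f = Q * f + R ∧ R.degree < f.degree ∧
      Q.natDegree = f.natDegree - 2 ∧
      Q.coeff (f.natDegree - 2) = (f.natDegree : ℂ) ^ 2 * f.leadingCoeff := by
  have hf0 : f ≠ 0 := by rintro rfl; simp at hf
  have hfd : derivative f ≠ 0 := by
    intro h0
    have h := natDegree_der f hf
    rw [h0, natDegree_zero] at h
    omega
  have hdd : (derivative f * derivative f).natDegree = 2 * (f.natDegree - 1) := by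
    rw [natDegree_mul hfd hfd, natDegree_der f hf]; ring
  have hle : f.degree ≤ (derivative f * derivative f).degree := by
    rw [degree_eq_natDegree hf0, degree_eq_natDegree (mul_ne_zero hfd hfd), hdd]
    exact_mod_cast (by omega : f.natDegree ≤ 2 * (f.natDegree - 1))
  have h1 := degree_add_div hf0 hle
  have hq0 : (derivative f * derivative f) / f ≠ 0 := by
    intro h0
    rw [h0, degree_zero, degree_eq_natDegree (mul_ne_zero hfd hfd)] at h1
    simp at h1
  have hnq : ((derivative f * derivative f) / f).natDegree = f.natDegree - 2 := by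
    rw [degree_eq_natDegree hf0, degree_eq_natDegree hq0,
      degree_eq_natDegree (mul_ne_zero hfd hfd), hdd] at h1
    have h2 : f.natDegree + ((derivative f * derivative f) / f).natDegree
        = 2 * (f.natDegree - 1) := by exact_mod_cast h1
    omega
  refine ⟨(derivative f * derivative f) / f, (derivative f * derivative f) % f, ?_,
    degree_mod_lt _ hf0, hnq, ?_⟩
  · have := EuclideanDomain.div_add_mod (derivative f * derivative f) f
    rw [mul_comm f] at this
    exact this.symm
  · rw [← hnq, coeff_natDegree, leadingCoeff_div hle, leadingCoeff_mul]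
    have hlc : (derivative f).leadingCoeff = (f.natDegree : ℂ) * f.leadingCoeff := by
      rw [leadingCoeff, natDegree_der f hf, coeff_derivative, leadingCoeff]
      have h3 : f.natDegree - 1 + 1 = f.natDegree := by omega
      have h4 : ((f.natDegree - 1 : ℕ) : ℂ) + 1 = (f.natDegree : ℂ) := by exact_mod_cast h3
      rw [h3, h4, mul_comm]
    have hl0 : f.leadingCoeff ≠ 0 := leadingCoeff_ne_zero.2 hf0
    rw [hlc]
    field_simp

theorem tr_sub_C (hf : 2 ≤ f.natDegree) (y : ℂ) : tr (f - C y) = tr f := by
  obtain ⟨Q, R, hQR, hR, hQ, -⟩ := quot_facts f hf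
  have hf0 : f ≠ 0 := by rintro rfl; simp at hf
  have hnd : (f - C y).natDegree = f.natDegree := natDegree_sub_C
  have hfy0 : f - C y ≠ 0 := by
    intro h; rw [h] at hnd; simp at hnd; omega
  have hdeg : (f - C y).degree = f.degree := by
    rw [degree_eq_natDegree hfy0, degree_eq_natDegree hf0, hnd]
  have hlc : (f - C y).leadingCoeff = f.leadingCoeff := by
    rw [leadingCoeff, leadingCoeff, hnd, coeff_sub, coeff_C_of_ne_zero (by omega), sub_zero]
  have hd : derivative (f - C y) = derivative f := by simp
  have hQd : Q.degree < f.degree := by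
    refine degree_le_natDegree.trans_lt ?_
    rw [hQ, degree_eq_natDegree hf0]
    exact_mod_cast (by omega : f.natDegree - 2 < f.natDegree)
  have h1 := trace_lemma f (derivative f) Q R hf0 hR hQR
  have h2 := trace_lemma (f - C y) (derivative f) Q (R + C y * Q) hfy0
    (by
      rw [hdeg]
      refine (degree_add_le _ _).trans_lt (max_lt hR ?_)
      refine degree_le_natDegree.trans_lt ?_
      rw [degree_eq_natDegree hf0]
      have := natDegree_C_mul_le y Q
      exact_mod_cast (by omega : (C y * Q).natDegree < f.natDegree))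
    (by rw [hd, hQR]; ring)
  rw [hnd, hlc, coeff_add, coeff_C_mul,
    coeff_eq_zero_of_natDegree_lt (show Q.natDegree < f.natDegree - 1 by omega), mul_zero,
    add_zero, ← h1] at h2
  have hl0 : f.leadingCoeff ≠ 0 := leadingCoeff_ne_zero.2 hf0
  have h3 := mul_left_cancel₀ hl0 h2
  rw [tr, tr, hd]
  exact h3

theorem natDegree_sub_X (hf : 2 ≤ f.natDegree) : (f - X).natDegree = f.natDegree := by
  apply natDegree_sub_eq_left_of_natDegree_lt
  rw [natDegree_X]; omega

theorem sum_multipliers (hf : 2 ≤ f.natDegree) :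
    ((f - X).roots.map (fun ζ => (derivative f).eval ζ)).sum
      = (f.natDegree : ℂ) * ((f.natDegree : ℂ) - 1) + tr f := by
  obtain ⟨Q, R, hQR, hR, hQ, hQc⟩ := quot_facts f hf
  have hf0 : f ≠ 0 := by rintro rfl; simp at hf
  have hnd := natDegree_sub_X f hf
  have hg0 : f - X ≠ 0 := by
    intro h; rw [h] at hnd; simp at hnd; omega
  have hdeg : (f - X).degree = f.degree := by
    rw [degree_eq_natDegree hg0, degree_eq_natDegree hf0, hnd]
  have hlc : (f - X).leadingCoeff = f.leadingCoeff := by
    rw [leadingCoeff, leadingCoeff, hnd, coeff_sub, coeff_X_of_ne_one (by omega), sub_zero]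
  have hd : derivative (f - X) = derivative f - 1 := by simp
  have h1 := trace_lemma f (derivative f) Q R hf0 hR hQR
  have hfn : f.degree = (f.natDegree : WithBot ℕ) := degree_eq_natDegree hf0
  have hlt : ∀ u : ℂ[X], u.natDegree ≤ f.natDegree - 1 → u.degree < f.degree := by
    intro u hu
    refine degree_le_natDegree.trans_lt ?_
    rw [hfn]
    exact_mod_cast (by omega : u.natDegree < f.natDegree)
  have h2 := trace_lemma (f - X) (derivative f - 1) Q (R + X * Q - 2 * derivative f + 1) hg0
    (by
      rw [hdeg]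
      refine (degree_add_le _ _).trans_lt (max_lt ((degree_sub_le _ _).trans_lt
        (max_lt ((degree_add_le _ _).trans_lt (max_lt hR (hlt _ ?_))) (hlt _ ?_))) (hlt _ ?_))
      · refine natDegree_mul_le.trans ?_
        rw [natDegree_X, hQ]; omega
      · refine natDegree_mul_le.trans ?_
        rw [natDegree_der f hf]
        have : (2 : ℂ[X]).natDegree = 0 := natDegree_ofNat 2
        rw [this]; omega
      · rw [natDegree_one]; omega)
    (by rw [hd]; linear_combination hQR)
  have hc1 : (X * Q).coeff (f.natDegree - 1) = (f.natDegree : ℂ) ^ 2 * f.leadingCoeff := by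
    have : f.natDegree - 1 = (f.natDegree - 2) + 1 := by omega
    rw [this, coeff_X_mul, hQc]
  have hc2 : (2 * derivative f).coeff (f.natDegree - 1)
      = 2 * ((f.natDegree : ℂ) * f.leadingCoeff) := by
    have h2C : (2 : ℂ[X]) = C 2 := (map_ofNat C 2).symm
    rw [h2C, coeff_C_mul, coeff_derivative]
    have h3 : f.natDegree - 1 + 1 = f.natDegree := by omega
    have h4 : ((f.natDegree - 1 : ℕ) : ℂ) + 1 = (f.natDegree : ℂ) := by exact_mod_cast h3
    rw [h3, h4, leadingCoeff]; ring
  have hc3 : (1 : ℂ[X]).coeff (f.natDegree - 1) = 0 := by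
    rw [coeff_one, if_neg (by omega)]
  rw [hnd, hlc, coeff_add, coeff_sub, coeff_add, hc1, hc2, hc3, ← h1] at h2
  have hl0 : f.leadingCoeff ≠ 0 := leadingCoeff_ne_zero.2 hf0
  have h5 : ((f - X).roots.map (fun ζ => (derivative f - 1).eval ζ)).sum
      = ((f - X).roots.map (fun ζ => (derivative f).eval ζ)).sum - (f.natDegree : ℂ) := by
    have h6 : (fun ζ : ℂ => (derivative f - 1).eval ζ)
        = fun ζ => (derivative f).eval ζ - 1 := by
      funext ζ; simp
    have h7 : (f - X).roots.card = f.natDegree := by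
      rw [← hnd]; exact (IsAlgClosed.splits (f - X)).natDegree_eq_card_roots.symm
    rw [h6, Multiset.sum_map_sub]
    simp [h7]
  rw [h5] at h2
  have h8 : f.leadingCoeff * (((f - X).roots.map (fun ζ => (derivative f).eval ζ)).sum)
      = f.leadingCoeff * ((f.natDegree : ℂ) * ((f.natDegree : ℂ) - 1) + tr f) := by
    rw [tr]
    linear_combination h2
  exact mul_left_cancel₀ hl0 h8

/-- If all roots of `g` are simple, `∑ 1/g'(ζ) = 0`. -/
theorem sum_inv (g : ℂ[X]) (hg : 2 ≤ g.natDegree) (hco : IsCoprime g (derivative g)) :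
    (g.roots.map (fun ζ => ((derivative g).eval ζ)⁻¹)).sum = 0 := by
  obtain ⟨u, v, huv⟩ := hco
  have hg0 : g ≠ 0 := by rintro rfl; simp at hg
  have h1 := trace_lemma g v (-u) 1 hg0
    (by rw [degree_one, degree_eq_natDegree hg0]; exact_mod_cast (by omega : 0 < g.natDegree))
    (by linear_combination huv)
  rw [coeff_one, if_neg (by omega)] at h1
  have hl0 : g.leadingCoeff ≠ 0 := leadingCoeff_ne_zero.2 hg0
  have h2 := (mul_eq_zero.1 h1).resolve_left hl0
  rw [← h2]
  congr 1
  apply Multiset.map_congr rfl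
  intro ζ hζ
  have h3 : g.eval ζ = 0 := (mem_roots hg0).1 hζ
  have h4 := congrArg (fun q => eval ζ q) huv
  simp only [eval_add, eval_mul, h3, mul_zero, zero_add, eval_one] at h4
  exact (eq_inv_of_mul_eq_one_left h4).symm

end

end Pool.Agent.H548R3.MM
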