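import Pool.Agent.H548R3.MM.Core
import Pool.Agent.H548R3.MM.Trace
import Pool.Agent.H548R3.MM.Quad

set_option autoImplicit false

namespace Pool.Agent.H548R3.MM

open Polynomial

/-- Simple fixed points: contradiction. -/
theorem simple_case (f : ℂ[X]) (hf : 8 ≤ f.natDegree) (hT : 0 ≤ (tr f).re)
    (hsimple : ∀ z : ℂ, f.eval z = z → (derivative f).eval z ≠ 1)
    (hlt : ∀ z : ℂ, f.eval z = z → ‖(derivative f).eval z‖ < (f.natDegree : ℝ)) : False := by
  classical
  have hf2 : 2 ≤ f.natDegree := by omega
  have hnd := natDegree_sub_X f hf2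
  have hg0 : f - X ≠ 0 := by
    intro h; rw [h] at hnd; simp at hnd; omega
  have hroot : ∀ z, z ∈ (f - X).roots ↔ f.eval z = z := by
    intro z
    rw [mem_roots hg0, IsRoot.def, eval_sub, eval_X, sub_eq_zero]
  have hd : derivative (f - X) = derivative f - 1 := by simp
  have hco : IsCoprime (f - X) (derivative (f - X)) := by
    rw [isCoprime_iff_aeval_ne_zero_of_isAlgClosed ℂ ℂ]
    intro z
    by_contra hcon
    push Not at hcon
    obtain ⟨h1, h2⟩ := hcon
    rw [hd] at h2
    simp only [coe_aeval_eq_eval, eval_sub, eval_X, eval_one] at h1 h2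
    exact hsimple z (sub_eq_zero.1 h1) (sub_eq_zero.1 h2)
  have hnodup : (f - X).roots.Nodup := nodup_roots hco
  have hcard : (f - X).roots.card = f.natDegree := by
    rw [← hnd]; exact (IsAlgClosed.splits (f - X)).natDegree_eq_card_roots.symm
  set S : Finset ℂ := ⟨(f - X).roots, hnodup⟩ with hS
  have hmemS : ∀ z, z ∈ S ↔ f.eval z = z := fun z => hroot z
  refine core S (fun z => (derivative f).eval z) (f.natDegree : ℝ) (tr f) (by exact_mod_cast hf) hT
    ?_ ?_ ?_ ?_ ?_
  · have : S.card = f.natDegree := hcard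
    rw [this]
  · intro z hz; exact hlt z ((hmemS z).1 hz)
  · intro z hz; exact hsimple z ((hmemS z).1 hz)
  · have h := sum_multipliers f hf2
    have h2 : ∑ z ∈ S, (derivative f).eval z
        = ((f - X).roots.map (fun ζ => (derivative f).eval ζ)).sum := rfl
    rw [h2, h]
    push_cast
    ring
  · have h := sum_inv (f - X) (by omega) hco
    have h2 : ∑ z ∈ S, (1 - (derivative f).eval z)⁻¹
        = ((f - X).roots.map (fun ζ => (1 - (derivative f).eval ζ)⁻¹)).sum := rfl
    rw [h2]
    have h3 : (fun ζ : ℂ => (1 - (derivative f).eval ζ)⁻¹)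
        = fun ζ => - ((derivative (f - X)).eval ζ)⁻¹ := by
      funext ζ
      rw [hd, eval_sub, eval_one, ← inv_neg, neg_sub]
    rw [h3, Multiset.sum_map_neg, h, neg_zero]

/-- General case, by perturbation. -/
theorem general_case (f : ℂ[X]) (hf : 8 ≤ f.natDegree) (hT : 0 ≤ (tr f).re) :
    ∃ z : ℂ, f.eval z = z ∧ (f.natDegree : ℝ) ≤ ‖(derivative f).eval z‖ := by
  classical
  by_contra hcon
  push Not at hcon
  have hf2 : 2 ≤ f.natDegree := by omega
  have hnd := natDegree_sub_X f hf2
  have hg0 : f - X ≠ 0 := by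
    intro h; rw [h] at hnd; simp at hnd; omega
  have hgdeg : 0 < (f - X).degree := by
    rw [degree_eq_natDegree hg0, hnd]; exact_mod_cast (by omega : 0 < f.natDegree)
  obtain ⟨c, hc0, hc⟩ : ∃ c : ℝ, 0 < c ∧ ∀ z : ℂ, ‖(f - X).eval z‖ < c →
      ‖(derivative f).eval z‖ < (f.natDegree : ℝ) := by
    set K : Set ℂ := {z | (f.natDegree : ℝ) ≤ ‖(derivative f).eval z‖} with hK
    have hKc : IsClosed K :=
      isClosed_le continuous_const ((derivative f).continuous.norm)
    by_cases hKe : K.Nonempty
    · obtain ⟨x₀, hx₀⟩ := hKe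
      have htend : Filter.Tendsto (fun z : ℂ => ‖(f - X).eval z‖) (Filter.cocompact ℂ)
          Filter.atTop := (f - X).tendsto_norm_atTop hgdeg (tendsto_norm_cocompact_atTop)
      obtain ⟨x, hxK, hx⟩ := ContinuousOn.exists_isMinOn'
        (f := fun z : ℂ => ‖(f - X).eval z‖) (s := K)
        ((f - X).continuous.norm.continuousOn) hKc hx₀
        ((htend.eventually (Filter.eventually_ge_atTop _)).filter_mono inf_le_left)
      refine ⟨‖(f - X).eval x‖, ?_, ?_⟩
      · rw [norm_pos_iff]
        intro h0
        rw [eval_sub, eval_X, sub_eq_zero] at h0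
        exact absurd (hcon x h0) (not_lt.2 hxK)
      · intro z hz
        by_contra hz2
        push Not at hz2
        exact absurd (hx hz2) (not_le.2 hz)
    · refine ⟨1, one_pos, fun z _ => ?_⟩
      by_contra hz2
      push Not at hz2
      exact hKe ⟨z, hz2⟩
  -- choose ε
  set V : Finset ℂ := ((derivative (f - X)).roots.map (fun z => (f - X).eval z)).toFinset with hV
  obtain ⟨ε, hε1, hε2⟩ : (Metric.ball (0 : ℂ) c \ (V : Set ℂ)).Nonempty :=
    ((infinite_of_mem_nhds (0 : ℂ) (Metric.ball_mem_nhds _ hc0)).sdiff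
      (Finset.finite_toSet _)).nonempty
  have hd : derivative (f - X) = derivative f - 1 := by simp
  have hdf0 : derivative (f - X) ≠ 0 := by
    intro h0
    have h1 := natDegree_derivative (f - X)
    rw [h0, natDegree_zero, hnd] at h1
    omega
  have hfe : (f - C ε).natDegree = f.natDegree := natDegree_sub_C
  have hde : derivative (f - C ε) = derivative f := by simp
  refine simple_case (f - C ε) (by rw [hfe]; exact hf) (by rw [tr_sub_C f hf2]; exact hT) ?_ ?_
  · intro z hz h1
    rw [hde] at h1
    apply hε2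
    rw [hV, Finset.mem_coe, Multiset.mem_toFinset, Multiset.mem_map]
    refine ⟨z, ?_, ?_⟩
    · rw [mem_roots hdf0, IsRoot.def, hd, eval_sub, h1, eval_one, sub_self]
    · rw [eval_sub, eval_C] at hz
      rw [eval_sub, eval_X]
      linear_combination hz
  · intro z hz
    rw [hde, hfe]
    apply hc
    rw [eval_sub, eval_C] at hz
    have h3 : (f - X).eval z = ε := by
      rw [eval_sub, eval_X]; linear_combination hz
    rw [h3]
    simpa using hε1

/-- Multiplicativity of `tr`. -/
theorem tr_comp (p q : ℂ[X]) (hp : 1 ≤ p.natDegree) (hq : 2 ≤ q.natDegree) :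
    tr (p.comp q) = tr p * tr q := by
  classical
  have hp0 : p ≠ 0 := by rintro rfl; simp at hp
  have hpP : p = C p.leadingCoeff * (p.roots.map (fun w => X - C w)).prod :=
    (IsAlgClosed.splits p).eq_prod_roots
  have hqw : ∀ w, q - C w ≠ 0 := by
    intro w h
    have : (q - C w).natDegree = q.natDegree := natDegree_sub_C
    rw [h] at this; simp at this; omega
  have hcomp : p.comp q = C p.leadingCoeff * (p.roots.map (fun w => q - C w)).prod := by
    conv_lhs => rw [hpP]
    rw [mul_comp, C_comp, multiset_prod_comp, Multiset.map_map]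
    congr 2
    apply Multiset.map_congr rfl
    intro w hw
    simp
  have hl0 : p.leadingCoeff ≠ 0 := leadingCoeff_ne_zero.2 hp0
  have hroots : (p.comp q).roots = p.roots.bind (fun w => (q - C w).roots) := by
    rw [hcomp, roots_C_mul _ hl0, roots_multiset_prod, Multiset.bind_map]
    intro h0
    rw [Multiset.mem_map] at h0
    obtain ⟨w, -, hw⟩ := h0
    exact hqw w hw
  unfold tr
  rw [hroots, Multiset.map_bind, Multiset.sum_bind]
  have h1 : ∀ w ∈ p.roots, (((q - C w).roots.map
      (fun ζ => (derivative (p.comp q)).eval ζ)).sum) = (derivative p).eval w * tr q := by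
    intro w _
    rw [← tr_sub_C q hq w, tr, ← Multiset.sum_map_mul_left]
    congr 1
    apply Multiset.map_congr rfl
    intro ζ hζ
    have h2 : (q - C w).eval ζ = 0 := (mem_roots (hqw w)).1 hζ
    rw [eval_sub, eval_C, sub_eq_zero] at h2
    have h3 : derivative (q - C w) = derivative q := by simp
    rw [derivative_comp, eval_mul, eval_comp, h2, h3]
    ring
  rw [Multiset.map_congr rfl h1, Multiset.sum_map_mul_right]
  rfl

/-- The `n`-th iterate, in the frozen statement's form. -/
noncomputable abbrev iter (p : ℂ[X]) (n : ℕ) : ℂ[X] := (fun q : ℂ[X] => p.comp q)^[n] X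

theorem iter_natDegree (p : ℂ[X]) (n : ℕ) : (iter p n).natDegree = p.natDegree ^ n := by
  induction n with
  | zero => simp [iter]
  | succ n ih =>
      have h : iter p (n + 1) = p.comp (iter p n) := Function.iterate_succ_apply' _ _ _
      rw [h, natDegree_comp, ih, pow_succ, mul_comm]

theorem tr_iter (p : ℂ[X]) (hp : 2 ≤ p.natDegree) (n : ℕ) : tr (iter p (n + 1)) = tr p ^ (n + 1) := by
  induction n with
  | zero => simp [iter]
  | succ n ih =>
      have h : iter p (n + 1 + 1) = p.comp (iter p (n + 1)) := Function.iterate_succ_apply' _ _ _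
      have hdeg : 2 ≤ (iter p (n + 1)).natDegree := by
        rw [iter_natDegree]
        calc 2 ≤ p.natDegree := hp
          _ = p.natDegree ^ 1 := (pow_one _).symm
          _ ≤ p.natDegree ^ (n + 1) := Nat.pow_le_pow_right (by omega) (by omega)
      rw [h, tr_comp p _ (by omega) hdeg, ih]
      ring

/-- Half-plane criterion. -/
theorem half_plane (p : ℂ[X]) (hd : 2 ≤ p.natDegree) (n : ℕ) (hn : 2 ≤ n)
    (hT : 0 ≤ (tr p ^ n).re) :
    ∃ z : ℂ, (iter p n).eval z = z ∧
      (p.natDegree : ℝ) ^ n ≤ ‖(derivative (iter p n)).eval z‖ := by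
  by_cases h8 : 8 ≤ p.natDegree ^ n
  · have hn1 : n = (n - 1) + 1 := by omega
    have h1 := general_case (iter p n) (by rw [iter_natDegree]; exact h8)
      (by rw [hn1, tr_iter p hd, ← hn1]; exact hT)
    obtain ⟨z, hz1, hz2⟩ := h1
    refine ⟨z, hz1, ?_⟩
    rw [iter_natDegree] at hz2
    exact_mod_cast hz2
  · have hd2 : p.natDegree = 2 := by
      by_contra hne
      have h3 : 3 ≤ p.natDegree := by omega
      apply h8
      calc 8 ≤ 3 ^ 2 := by norm_num
        _ ≤ p.natDegree ^ 2 := Nat.pow_le_pow_left h3 2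
        _ ≤ p.natDegree ^ n := Nat.pow_le_pow_right (by omega) hn
    have hn2 : n = 2 := by
      by_contra hne
      apply h8
      rw [hd2]
      calc 8 = 2 ^ 3 := by norm_num
        _ ≤ 2 ^ n := Nat.pow_le_pow_right (by norm_num) (by omega)
    subst hn2
    obtain ⟨z, hz1, hz2⟩ := quad_two p hd2
    have hit : iter p 2 = p.comp p := by simp [iter]
    refine ⟨z, by rw [hit]; exact hz1, ?_⟩
    rw [hit, hd2]
    norm_num
    exact hz2

end Pool.Agent.H548R3.MM
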