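import Pool.Agent.H548R3.MM.Extra

set_option autoImplicit false

namespace Pool.Agent.H548R3.MM

open Polynomial

theorem iter_add (p : ℂ[X]) (a b : ℕ) : iter p (a + b) = (iter p a).comp (iter p b) := by
  induction a with
  | zero => simp [iter]
  | succ a ih =>
      have h1 : iter p (a + 1 + b) = p.comp (iter p (a + b)) := by
        rw [show a + 1 + b = (a + b) + 1 by ring]
        exact Function.iterate_succ_apply' _ _ _
      have h2 : iter p (a + 1) = p.comp (iter p a) := Function.iterate_succ_apply' _ _ _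
      rw [h1, h2, ih, comp_assoc]

theorem iter_mul_fixed (p : ℂ[X]) (m : ℕ) (z : ℂ) (hz : (iter p m).eval z = z) (k : ℕ) :
    (iter p (m * k)).eval z = z ∧
      (derivative (iter p (m * k))).eval z = ((derivative (iter p m)).eval z) ^ k := by
  induction k with
  | zero => simp [iter]
  | succ k ih =>
      have h : iter p (m * (k + 1)) = (iter p m).comp (iter p (m * k)) := by
        rw [← iter_add]; congr 1; ring
      constructor
      · rw [h, eval_comp, ih.1, hz]
      · rw [h, derivative_comp, eval_mul, eval_comp, ih.1, ih.2, pow_succ]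

theorem bound_mul (p : ℂ[X]) (m k : ℕ)
    (h : ∃ z : ℂ, (iter p m).eval z = z ∧
      (p.natDegree : ℝ) ^ m ≤ ‖(derivative (iter p m)).eval z‖) :
    ∃ z : ℂ, (iter p (m * k)).eval z = z ∧
      (p.natDegree : ℝ) ^ (m * k) ≤ ‖(derivative (iter p (m * k))).eval z‖ := by
  obtain ⟨z, hz, hb⟩ := h
  obtain ⟨h1, h2⟩ := iter_mul_fixed p m z hz k
  refine ⟨z, h1, ?_⟩
  rw [h2, norm_pow, pow_mul]
  exact pow_le_pow_left₀ (by positivity) hb k

theorem bound_one (p : ℂ[X]) (hd : 8 ≤ p.natDegree) (hT : 0 ≤ (tr p).re) :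
    ∃ z : ℂ, (iter p 1).eval z = z ∧
      (p.natDegree : ℝ) ^ 1 ≤ ‖(derivative (iter p 1)).eval z‖ := by
  have hit : iter p 1 = p := by simp [iter]
  rw [hit, pow_one]
  exact general_case p hd hT

end Pool.Agent.H548R3.MM
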